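import Pool.Agent.Lib.MP_846a4c_an.R.Line

/-! The two sets are measurable and their doubles are equidecomposable. -/

set_option autoImplicit false

namespace Pool.Agent.Lib.MP_846a4c_an.R.Sys

variable (s : Sys)

theorem meas (Q : ℕ → ℕ → Prop) :
    MeasurableSet {x | x ∉ s.Γ ∧ ∃ n j, Q n j ∧ ∃ e, x = s.c n e + s.g j} :=
  measurableSet_setOfPred.2 <| (measurableSet_setOfPred.1 s.cnt.measurableSet).not.and <|
    .exists fun n => .exists fun j => measurable_const.and <| measurableSet_setOfPred.1 <| by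
      simpa only [Set.range, eq_comm, Pi.add_apply] using
        (isCompact_range ((s.cont n).add (continuous_const (y := s.g j)))).measurableSet

theorem meas_X (a : ℕ) : MeasurableSet (s.X a) := by
  have := s.meas fun n j => j ≤ s.l n ∧ j % 2 = a
  refine (congrArg MeasurableSet (Set.ext fun x => and_congr_right fun _ => ?_)).mp this
  exact ⟨fun ⟨n, j, h, e, h'⟩ => ⟨n, e, j, h.1, h.2, h'⟩,
    fun ⟨n, e, j, h1, h2, h'⟩ => ⟨n, j, ⟨h1, h2⟩, e, h'⟩⟩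

/-- The point `σ + x` is a neighbour of `x`. -/
def Adj (x σ : ℝ) : Prop :=
  x ∉ s.Γ ∧ ∃ n j, (∃ j', j ≤ s.l n ∧ j' ≤ s.l n ∧ (j' = j + 1 ∨ j = j' + 1) ∧
    s.g j' = σ + s.g j) ∧ ∃ e, x = s.c n e + s.g j

open Classical in
/-- The rank of a step among the steps to the neighbours. -/
noncomputable def rk (x σ : ℝ) : Fin 2 := if ∀ σ' ∈ s.S, s.Adj x σ' → σ ≤ σ' then 0 else 1

theorem meas_adj (σ : ℝ) : Measurable fun x => s.Adj x σ :=
  measurableSet_setOfPred.1 (s.meas _)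

theorem meas_rk (σ : ℝ) : Measurable fun x => s.rk x σ := by
  refine Measurable.ite ?_ measurable_const measurable_const
  have : Measurable fun x => ∀ σ' : s.S, s.Adj x σ' → σ ≤ σ' :=
    .forall fun σ' => (s.meas_adj σ').imp measurable_const
  simpa only [Subtype.forall] using measurableSet_setOfPred.2 this

variable {s} {x σ : ℝ} {a : ℕ}

theorem Adj.mem (h : s.Adj x σ) : σ ∈ s.S := by
  obtain ⟨-, n, j, ⟨j', -, -, rfl | rfl, h⟩, -⟩ := h
  · exact (sub_eq_iff_eq_add.2 h) ▸ (s.step j).1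
  · exact (sub_eq_iff_eq_add.2 h) ▸ (s.step j').2

theorem Adj.symm (h : s.Adj x σ) : s.Adj (σ + x) (-σ) := by
  obtain ⟨h0, n, j, ⟨j', h1, h2, h3, h⟩, e, h4⟩ := h
  refine ⟨fun h5 => h0 ?_, n, j', ⟨j, h2, h1, h3.symm, by linarith⟩, e, by linarith⟩
  have := add_mem (sub_mem h5 (s.gm j')) (s.gm j)
  rwa [show σ + x - s.g j' + s.g j = x by linarith] at this

theorem Line.adj {n : ℕ} {e : ℕ → Bool} {y : ℤ → ℝ} (L : s.Line n e y) (he : s.c 0 e ∉ s.Γ)
    (i : ℤ) : s.Adj (y i) σ ↔ σ = y (i + 1) - y i ∨ σ = y (i - 1) - y i := by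
  constructor
  · rintro ⟨-, m, j, ⟨j', h1, h2, h3, h4⟩, e', h5⟩
    obtain ⟨T, -, h | h⟩ := L.all m e' (Line.cl h5 (L.cls i)) <;>
      obtain rfl := L.inj (h5.trans (h j h1)) <;> have h6 := h j' h2 <;>
      rcases h3 with rfl | rfl <;> push_cast at h5 h6 ⊢
    · exact .inl (by rw [add_assoc]; linarith)
    · exact .inr (by rw [show T + (j' + 1) - 1 = T + j' by ring]; linarith)
    · exact .inr (by rw [sub_sub]; linarith)
    · exact .inl (by rw [show T - (j' + 1) + 1 = T - j' by ring]; linarith)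
  · intro h
    have h0 := (L.mem he i (a := (i % 2).toNat) (by omega)).1
    rcases h with rfl | rfl
    · obtain ⟨m, j, j', h1, h2, h3, h4, -, h5⟩ := L.loc i (i + 1)
      exact ⟨h0, m, j, ⟨j', h1, h2, by omega, by linarith⟩, e, h3⟩
    · obtain ⟨m, j, j', h1, h2, h3, h4, -, h5⟩ := L.loc i (i - 1)
      exact ⟨h0, m, j, ⟨j', h1, h2, by omega, by linarith⟩, e, h3⟩

theorem Adj.other (h : s.Adj x σ) (hx : x ∈ s.X a) {b : ℕ} (hb : a + b = 1) :
    σ + x ∈ s.X b := by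
  obtain ⟨e, y, i, he, L, rfl, hi⟩ := exists_on hx
  rcases (L.adj he i).1 h with rfl | rfl <;> rw [sub_add_cancel] <;> exact L.mem he _ (by omega)

theorem rank (hx : x ∈ s.X a) (l : Fin 2) : ∃! σ, s.Adj x σ ∧ s.rk x σ = l := by
  obtain ⟨u, v, huv, h⟩ : ∃ u v : ℝ, u < v ∧ ∀ σ, s.Adj x σ ↔ σ = u ∨ σ = v := by
    obtain ⟨e, y, i, he, L, rfl, -⟩ := exists_on hx
    rcases lt_trichotomy (y (i + 1) - y i) (y (i - 1) - y i) with h | h | h
    · exact ⟨_, _, h, fun σ => L.adj he i⟩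
    · have := L.inj (sub_left_injective h)
      omega
    · exact ⟨_, _, h, fun σ => (L.adj he i).trans or_comm⟩
  have hu := (h u).2 (.inl rfl)
  have h0 : s.rk x u = 0 := if_pos fun σ _ hσ => ((h σ).1 hσ).elim (·.ge) (· ▸ huv.le)
  have h1 : s.rk x v = 1 := if_neg fun h' => (h' u hu.mem hu).not_gt huv
  fin_cases l
  · refine ⟨u, ⟨hu, h0⟩, fun σ hσ => ((h σ).1 hσ.1).resolve_right ?_⟩
    rintro rfl
    exact absurd (h1.symm.trans hσ.2) (by decide)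
  · refine ⟨v, ⟨(h v).2 (.inr rfl), h1⟩, fun σ hσ => ((h σ).1 hσ.1).resolve_left ?_⟩
    rintro rfl
    exact absurd (h0.symm.trans hσ.2) (by decide)

theorem double (s : Sys) : ∃ (m : ℕ) (P : Fin m → Set (ℝ × Fin 2))
    (γ : Fin m → ℝ × Equiv.Perm (Fin 2)), (∀ j, MeasurableSet (P j)) ∧
    (∀ i j, i ≠ j → Disjoint (P i) (P j)) ∧
    (∀ i j, i ≠ j → Disjoint ((fun p => ((γ i).1 + p.1, (γ i).2 p.2)) '' P i)
      ((fun p => ((γ j).1 + p.1, (γ j).2 p.2)) '' P j)) ∧ ⋃ j, P j = s.X 0 ×ˢ Set.univ ∧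
    ⋃ j, (fun p => ((γ j).1 + p.1, (γ j).2 p.2)) '' P j = s.X 1 ×ˢ Set.univ := by
  let E := (Fintype.equivFin (s.S × Fin 2 × Fin 2)).symm
  let P : s.S × Fin 2 × Fin 2 → Set (ℝ × Fin 2) := fun k => {p | p.1 ∈ s.X 0 ∧ s.Adj p.1 k.1 ∧
    s.rk p.1 k.1 = k.2.1 ∧ s.rk (k.1 + p.1) (-k.1) = k.2.2 ∧ p.2 = k.2.1}
  refine ⟨_, fun j => P (E j), fun j => ((E j).1, Equiv.swap (E j).2.1 (E j).2.2), fun j => ?_,
    fun i j hij => ?_, fun i j hij => ?_, ?_, ?_⟩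
  · refine measurableSet_setOfPred.2 <|
      ((measurableSet_setOfPred.1 (s.meas_X 0)).comp measurable_fst).and <|
      ((s.meas_adj _).comp measurable_fst).and <| Measurable.and ?_ <| Measurable.and ?_ ?_
    · exact ((s.meas_rk _).comp measurable_fst).eq_const _
    · exact ((s.meas_rk _).comp (measurable_fst.const_add _)).eq_const _
    · exact measurable_snd.eq_const _
  · refine Set.disjoint_left.2 fun p ⟨h0, h1, h2, h3, h4⟩ ⟨_, g1, g2, g3, g4⟩ => hij (E.injective ?_)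
    have h5 := (rank h0 p.2).unique ⟨h1, h2.trans h4.symm⟩ ⟨g1, g2.trans g4.symm⟩
    exact Prod.ext (Subtype.ext h5) (Prod.ext (h4.symm.trans g4) (by rw [← h3, ← g3, h5]))
  · refine Set.disjoint_left.2 ?_
    rintro _ ⟨p, ⟨h0, h1, h2, h3, h4⟩, rfl⟩ ⟨q, ⟨_, g1, g2, g3, g4⟩, h⟩
    simp only [h4, g4, Equiv.swap_apply_left, Prod.mk.injEq] at h
    have g5 := g1.symm
    rw [h.1] at g5 g3
    have h5 := neg_injective
      ((rank (h1.other h0 (b := 1) rfl) _).unique ⟨h1.symm, h3⟩ ⟨g5, g3.trans h.2⟩)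
    have h6 : q.1 = p.1 := by linarith [h.1]
    exact hij (E.injective (Prod.ext (Subtype.ext h5)
      (Prod.ext (by rw [← h2, ← g2, h5, h6]) h.2.symm)))
  · refine (E.surjective.iUnion_comp P).trans (Set.ext fun p => ⟨fun h => ?_, fun h => ?_⟩)
    · obtain ⟨k, hk⟩ := Set.mem_iUnion.1 h
      exact ⟨hk.1, trivial⟩
    · obtain ⟨σ, ⟨h1, h2⟩, -⟩ := rank h.1 p.2
      exact Set.mem_iUnion.2 ⟨(⟨σ, h1.mem⟩, p.2, s.rk (σ + p.1) (-σ)), h.1, h1, h2, rfl, rfl⟩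
  · refine Set.ext fun p => ⟨fun h => ?_, fun h => ?_⟩
    · obtain ⟨k, q, hq, rfl⟩ := Set.mem_iUnion.1 h
      exact ⟨hq.2.1.other hq.1 rfl, trivial⟩
    · obtain ⟨σ, ⟨h1, h2⟩, -⟩ := rank h.1 p.2
      obtain ⟨k, hk⟩ := E.surjective (⟨-σ, h1.symm.mem⟩, s.rk (σ + p.1) (-σ), p.2)
      refine Set.mem_iUnion.2 ⟨k, (σ + p.1, s.rk (σ + p.1) (-σ)), ?_, ?_⟩
      · simp only [hk]
        exact ⟨h1.other h.1 rfl, h1.symm, rfl, by simpa using h2, rfl⟩
      · simp [hk]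

end Pool.Agent.Lib.MP_846a4c_an.R.Sys
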