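import Mathlib

/-! A doubling path on the real line: the data that are used. -/

set_option autoImplicit false

namespace Pool.Agent.Lib.MP_846a4c_an.R

/-- A path `g` with blocks of lengths `l n`, shifts `τ n` and the sums `c n e` of the shifts. -/
structure Sys where
  l : ℕ → ℕ
  g : ℕ → ℝ
  τ : ℕ → ℝ
  c : ℕ → (ℕ → Bool) → ℝ
  Γ : AddSubgroup ℝ
  S : Finset ℝ
  even : ∀ n, Even (l n)
  grow : ∀ n, 2 * l n < l (n + 1)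
  sym : ∀ n i j, i ≤ l n → j + i = l (n + 1) → g j = g i + τ n
  step : ∀ j, g (j + 1) - g j ∈ S ∧ g j - g (j + 1) ∈ S
  inj : Function.Injective g
  coarse : ∀ δ, ∃ ρ : ℕ, ∀ i j, g i - g j = δ → i ≤ j + ρ
  gm : ∀ j, g j ∈ Γ
  cnt : (Γ : Set ℝ).Countable
  cont : ∀ n, Continuous (c n)
  succ : ∀ n e, c n e = (if e n = true then τ n else 0) + c (n + 1) e
  tail : ∀ n e e', (∀ i, n ≤ i → e i = e' i) → c n e = c n e'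
  zero : ∀ n, c n (fun _ => false) = 0
  dig : ∀ e e', c 0 e - c 0 e' ∈ Γ → ∃ N, ∀ i, N ≤ i → e i = e' i
  gen : ∀ δ, δ ∉ Γ → ∀ᶠ e in residual (ℕ → Bool), ∀ e', c 0 e + δ ≠ c 0 e'

/-- The points with an index of a given parity. -/
def Sys.X (s : Sys) (a : ℕ) : Set ℝ :=
  {x | x ∉ s.Γ ∧ ∃ n e j, j ≤ s.l n ∧ j % 2 = a ∧ x = s.c n e + s.g j}

/-- The line through a class. -/
structure Sys.Line (s : Sys) (n : ℕ) (e : ℕ → Bool) (y : ℤ → ℝ) : Prop where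
  base : ∀ i ≤ s.l n, s.c n e + s.g i = y i
  cls : ∀ i, y i - s.c 0 e ∈ s.Γ
  loc : ∀ i i' : ℤ, ∃ m j j', j ≤ s.l m ∧ j' ≤ s.l m ∧ y i = s.c m e + s.g j ∧
    y i' = s.c m e + s.g j' ∧ (j : ℤ) % 2 = i % 2 ∧ ((j : ℤ) - j' = i - i' ∨ (j : ℤ) - j' = i' - i)
  all : ∀ m e', s.c 0 e' - s.c 0 e ∈ s.Γ → ∃ T : ℤ, T % 2 = 0 ∧
    ((∀ j ≤ s.l m, s.c m e' + s.g j = y (T + j)) ∨ ∀ j ≤ s.l m, s.c m e' + s.g j = y (T - j))
  flip : ∀ k e', n ≤ k → e' k ≠ e k → (∀ i, i ≠ k → e' i = e i) → ∃ T : ℤ, T % 2 = 0 ∧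
    ∀ j ≤ s.l n, s.c n e' + s.g j = y (T - j)

end Pool.Agent.Lib.MP_846a4c_an.R
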