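import Pool.Agent.Lib.MP_846a4c_an.R.Path
import Pool.Agent.Lib.MP_846a4c_an.R.Defs

/-! The shifts are powers of a unit of the quadratic order of discriminant eight. -/

set_option autoImplicit false

namespace Pool.Agent.Lib.MP_846a4c_an.R

open Filter Topology

/-- The small unit. -/
noncomputable def mu : ℝ := 17 - 12 * √2

/-- The large unit. -/
noncomputable def nu : ℝ := 17 + 12 * √2

theorem rt_sq : √2 * √2 = (2 : ℝ) := Real.mul_self_sqrt zero_le_two

theorem mu_nu : mu * nu = 1 := by
  unfold mu nu
  linear_combination (-144) * rt_sq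

theorem nu_ge : 32 ≤ nu := by
  have h : (5 / 4 : ℝ) ≤ √2 := Real.le_sqrt_of_sq_le (by norm_num)
  unfold nu
  linarith

theorem mu_pos : 0 < mu := by
  have := mu_nu
  have := nu_ge
  by_contra h
  nlinarith

theorem mu_le : mu ≤ 1 / 32 := by
  have := mu_nu
  have := nu_ge
  have := mu_pos
  nlinarith

/-- The coordinates of the shifts. -/
def tt : ℕ → Bool → ℕ
  | 0 => fun b => if b then 34 else 24
  | n + 1 => fun b => if b then 17 * tt n true + 24 * tt n false else
      12 * tt n true + 17 * tt n false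

theorem tt_val (n : ℕ) : (tt n true : ℝ) - tt n false * √2 = 2 * mu ^ (n + 1) ∧
    (tt n true : ℝ) + tt n false * √2 = 2 * nu ^ (n + 1) := by
  induction n with
  | zero =>
    simp only [tt, mu, nu, if_true, Bool.false_eq_true, if_false]
    constructor <;> push_cast <;> ring
  | succ n ih =>
    simp only [tt, if_true, Bool.false_eq_true, if_false]
    rw [pow_succ mu, pow_succ nu, ← mul_assoc, ← mul_assoc, ← ih.1, ← ih.2]
    unfold mu nu
    push_cast
    exact ⟨by linear_combination (-12 * (tt n false : ℝ)) * rt_sq,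
      by linear_combination (-12 * (tt n false : ℝ)) * rt_sq⟩

theorem tt_gap (n : ℕ) (b : Bool) : bx tt n b + n < tt n b := by
  induction n with
  | zero => cases b <;> decide
  | succ n ih =>
    have h : 17 * tt n b ≤ tt (n + 1) b := by
      cases b <;> simp [tt]
    change bx tt n b + tt n b + _ < _
    omega

theorem tt_even (n : ℕ) : Even (tt n true) ∧ Even (tt n false) := by
  induction n with
  | zero => decide
  | succ n ih =>
    simp only [tt, if_true, Bool.false_eq_true, if_false]
    exact ⟨(ih.1.mul_left _).add (ih.2.mul_left _), (ih.1.mul_left _).add (ih.2.mul_left _)⟩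

/-- The embedding of the lattice. -/
noncomputable def ph : ℤ × ℤ →+ ℝ where
  toFun z := z.1 - z.2 * √2
  map_zero' := by simp
  map_add' z w := by
    simp only [Prod.fst_add, Prod.snd_add]
    push_cast
    ring

theorem ph_apply (a b : ℤ) : ph (a, b) = a - b * √2 := rfl

theorem ph_inj : Function.Injective ph := by
  refine (injective_iff_map_eq_zero _).2 fun ⟨a, b⟩ h => ?_
  rw [ph_apply, sub_eq_zero] at h
  rcases eq_or_ne b 0 with rfl | hb
  · rw [Int.cast_zero, zero_mul, Int.cast_eq_zero] at h
    rw [h]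
    rfl
  · exact ((irrational_sqrt_two.intCast_mul hb).ne_int a h.symm).elim

/-- The terms of the sums. -/
noncomputable def tm (n : ℕ) (b : Bool) : ℝ := if b = true then 2 * mu ^ (n + 1) else 0

/-- The sums of the shifts. -/
noncomputable def cc (n : ℕ) (e : ℕ → Bool) : ℝ := ∑' k, tm (n + k) (e (n + k))

theorem tm_bd (n : ℕ) (b : Bool) : 0 ≤ tm n b ∧ tm n b ≤ 2 * mu ^ (n + 1) := by
  have := pow_pos mu_pos (n + 1)
  unfold tm
  split_ifs <;> constructor <;> linarith

theorem geo (n : ℕ) : HasSum (fun k => 2 * mu ^ (n + k + 1)) (2 * mu ^ (n + 1) * (1 - mu)⁻¹) := by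
  have h := (hasSum_geometric_of_lt_one mu_pos.le (by linarith [mu_le])).mul_left
    (2 * mu ^ (n + 1))
  refine h.congr_fun ?_
  intro k
  ring

theorem sm (n : ℕ) (e : ℕ → Bool) : Summable fun k => tm (n + k) (e (n + k)) :=
  (geo n).summable.of_nonneg_of_le (fun _ => (tm_bd _ _).1) fun _ => (tm_bd _ _).2

theorem cc_bd (n : ℕ) (e : ℕ → Bool) : 0 ≤ cc n e ∧ cc n e ≤ 3 * mu ^ (n + 1) := by
  refine ⟨tsum_nonneg fun _ => (tm_bd _ _).1,
    (hasSum_le (fun _ => (tm_bd _ _).2) (sm n e).hasSum (geo n)).trans ?_⟩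
  have h1 := pow_pos mu_pos (n + 1)
  have h2 : (1 - mu)⁻¹ ≤ 3 / 2 := by
    rw [inv_le_comm₀ (by linarith [mu_le]) (by norm_num)]
    linarith [mu_le]
  nlinarith

theorem cc_succ (n : ℕ) (e : ℕ → Bool) : cc n e = tm n (e n) + cc (n + 1) e := by
  unfold cc
  rw [(sm n e).tsum_eq_zero_add]
  simp only [Nat.add_zero, Nat.add_right_comm n 1, Nat.add_assoc]

theorem cc_cont (n : ℕ) : Continuous (cc n) :=
  continuous_tsum (fun k => (continuous_of_discreteTopology (f := tm (n + k))).comp
    (continuous_apply _)) (geo n).summable fun k e => by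
      rw [Real.norm_of_nonneg (tm_bd _ _).1]
      exact (tm_bd _ _).2

theorem cc_tail {n : ℕ} {e e' : ℕ → Bool} (h : ∀ i, n ≤ i → e i = e' i) : cc n e = cc n e' :=
  tsum_congr fun k => by rw [h _ (Nat.le_add_right _ _)]

theorem cc_zero (n : ℕ) : cc n (fun _ => false) = 0 := by simp [cc, tm]

theorem cc_mem (n : ℕ) (e : ℕ → Bool) : cc 0 e - cc n e ∈ ph.range := by
  induction n with
  | zero => rw [sub_self]; exact zero_mem _
  | succ n ih =>
    have h : tm n (e n) ∈ ph.range := by
      unfold tm
      split_ifs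
      · exact ⟨(tt n true, tt n false), by rw [ph_apply]; exact_mod_cast (tt_val n).1⟩
      · exact zero_mem _
    have := add_mem ih h
    rwa [cc_succ n, show ∀ a b c : ℝ, a - (b + c) + b = a - c from fun _ _ _ => by ring] at this

theorem cc_dig {e e' : ℕ → Bool} (h : cc 0 e - cc 0 e' ∈ ph.range) :
    ∃ N, ∀ i, N ≤ i → e i = e' i := by
  obtain ⟨⟨a₀, b₀⟩, h0⟩ := h
  have n0 : 0 < nu := by linarith [nu_ge]
  have key : ∀ n, ∃ a b : ℤ, cc n e - cc n e' = a - b * √2 ∧
      |(a : ℝ) + b * √2| ≤ |(a₀ : ℝ) + b₀ * √2| + 3 * nu ^ n := fun n => by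
    induction n with
    | zero => exact ⟨a₀, b₀, h0.symm, by simp⟩
    | succ n ih =>
      obtain ⟨a, b, h1, h2⟩ := ih
      obtain ⟨h3, h4⟩ := tt_val n
      have h5 : 3 * nu ^ n ≤ nu ^ (n + 1) := by
        rw [pow_succ']
        exact mul_le_mul_of_nonneg_right (by linarith [nu_ge]) (pow_pos n0 n).le
      have h6 := pow_pos n0 (n + 1)
      rw [cc_succ n e, cc_succ n e'] at h1
      obtain ⟨h7, h8⟩ := abs_le.1 h2
      cases h9 : e n <;> cases h10 : e' n <;> simp only [h9, h10, tm, if_true, Bool.false_eq_true,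
        if_false] at h1
      · exact ⟨a, b, by linarith, by linarith⟩
      · exact ⟨a + tt n true, b + tt n false, by push_cast; linarith,
          abs_le.2 ⟨by push_cast; linarith, by push_cast; linarith⟩⟩
      · exact ⟨a - tt n true, b - tt n false, by push_cast; linarith,
          abs_le.2 ⟨by push_cast; linarith, by push_cast; linarith⟩⟩
      · exact ⟨a, b, by linarith, by linarith⟩
  generalize |(a₀ : ℝ) + b₀ * √2| = Y at key
  have lim := (tendsto_pow_atTop_nhds_zero_of_lt_one mu_pos.le
    (show mu < 1 by linarith [mu_le])).mul_const Y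
  rw [zero_mul] at lim
  obtain ⟨N, hN⟩ := eventually_atTop.1 (lim.eventually_lt_const (show (0 : ℝ) < 1 by norm_num))
  have eq : ∀ n, N ≤ n → cc n e = cc n e' := fun n hn => by
    obtain ⟨a, b, h1, h2⟩ := key n
    have h3 : |(a : ℝ) - b * √2| ≤ 3 * mu ^ (n + 1) := by
      have := cc_bd n e
      have := cc_bd n e'
      rw [← h1]
      exact abs_le.2 ⟨by linarith, by linarith⟩
    have h4 : ((a * a - 2 * (b * b) : ℤ) : ℝ) = (a - b * √2) * (a + b * √2) := by
      push_cast
      linear_combination ((b : ℝ) * b) * rt_sq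
    have h5 : |((a * a - 2 * (b * b) : ℤ) : ℝ)| < 1 := by
      have h6 : mu ^ n * nu ^ n = 1 := by rw [← mul_pow, mu_nu, one_pow]
      have h7 := mul_le_mul h3 h2 (abs_nonneg _) ((abs_nonneg _).trans h3)
      have h8 : 3 * mu ^ (n + 1) * (Y + 3 * nu ^ n) = 3 * mu * (mu ^ n * Y + 3) := by
        linear_combination 9 * mu * h6
      rw [h4, abs_mul]
      have := hN n hn
      have := mu_pos
      have := mu_le
      nlinarith
    rw [← Int.cast_abs, ← Int.cast_one, Int.cast_lt, Int.abs_lt_one_iff] at h5
    rw [h5, Int.cast_zero, zero_eq_mul] at h4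
    rw [← sub_eq_zero, h1]
    refine h4.elim id fun h6 => ?_
    have h7 : ph (a, -b) = ph 0 := by
      rw [map_zero, ph_apply, ← h6]
      push_cast
      ring
    obtain ⟨rfl, h8⟩ := Prod.mk.inj (ph_inj h7)
    rw [neg_eq_zero.1 h8]
    simp
  refine ⟨N, fun i hi => ?_⟩
  have h1 := eq i hi
  have h2 := pow_pos mu_pos (i + 1)
  rw [cc_succ i e, cc_succ i e', eq (i + 1) (Nat.le_succ_of_le hi), add_left_inj] at h1
  revert h1
  cases e i <;> cases e' i <;> simp only [tm, if_true, Bool.false_eq_true, if_false] <;>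
    intro h1 <;> first | trivial | linarith

theorem cc_four {a b a' b' : ℕ → Bool} (h : cc 0 a + cc 0 b = cc 0 a' + cc 0 b') (n : ℕ) :
    tm n (a n) + tm n (b n) = tm n (a' n) + tm n (b' n) := by
  have step : ∀ n, cc n a + cc n b = cc n a' + cc n b' →
      tm n (a n) + tm n (b n) = tm n (a' n) + tm n (b' n) := fun n h => by
    have h1 := cc_bd (n + 1) a
    have h2 := cc_bd (n + 1) b
    have h3 := cc_bd (n + 1) a'
    have h4 := cc_bd (n + 1) b'
    have h5 := pow_pos mu_pos (n + 1)
    have h6 : mu ^ (n + 1 + 1) ≤ mu ^ (n + 1) * (1 / 32) := by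
      rw [pow_succ]
      exact mul_le_mul_of_nonneg_left mu_le h5.le
    rw [cc_succ n a, cc_succ n b, cc_succ n a', cc_succ n b'] at h
    revert h
    cases a n <;> cases b n <;> cases a' n <;> cases b' n <;>
      simp only [tm, if_true, Bool.false_eq_true, if_false] <;> intro h <;>
      first | trivial | linarith
  have key : ∀ n, cc n a + cc n b = cc n a' + cc n b' := fun n => by
    induction n with
    | zero => exact h
    | succ n ih =>
      have := step n ih
      rw [cc_succ n a, cc_succ n b, cc_succ n a', cc_succ n b'] at ih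
      linarith
  exact step n (key n)

theorem cc_gen {δ : ℝ} (hδ : δ ∉ ph.range) :
    ∀ᶠ e in residual (ℕ → Bool), ∀ e', cc 0 e + δ ≠ cc 0 e' := by
  classical
  refine residual_of_dense_open ?_ fun e => ?_
  · have h := ((isCompact_range (cc_cont 0)).isClosed.preimage
      ((cc_cont 0).add (continuous_const (y := δ)))).isOpen_compl
    refine (congrArg IsOpen (Set.ext fun e => ?_)).mp h
    simp [eq_comm]
  have key : ∀ n, ∃ b : Bool, ∀ e', cc 0 (fun i => if i < n then e i else b) + δ ≠ cc 0 e' :=
    fun n => by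
      by_contra h
      push Not at h
      obtain ⟨y, hy⟩ := h false
      obtain ⟨y', hy'⟩ := h true
      have h1 := cc_four (a := y') (b := fun i => if i < n then e i else false) (a' := y)
        (b' := fun i => if i < n then e i else true) (by linarith)
      have h2 : cc n y = 0 := (cc_tail fun i hi => by
        have h3 := h1 i
        have h4 := pow_pos mu_pos (i + 1)
        rw [if_neg (not_lt.2 hi), if_neg (not_lt.2 hi)] at h3
        revert h3
        cases y i <;> cases y' i <;> simp only [tm, if_true, Bool.false_eq_true, if_false] <;>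
          intro h3 <;> first | trivial | linarith).trans (cc_zero n)
      have h3 : cc n (fun i => if i < n then e i else false) = 0 :=
        (cc_tail fun i hi => if_neg (not_lt.2 hi)).trans (cc_zero n)
      have h4 := sub_mem (cc_mem n y) (cc_mem n fun i => if i < n then e i else false)
      rw [h2, h3, sub_zero, sub_zero, ← hy, add_sub_cancel_left] at h4
      exact hδ h4
  choose b hb using key
  refine mem_closure_of_tendsto (f := fun n i => if i < n then e i else b n) (b := atTop)
    (tendsto_pi_nhds.2 fun i => tendsto_const_nhds.congr' ?_) (.of_forall hb)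
  filter_upwards [eventually_gt_atTop i] with n hn
  rw [if_pos hn]

theorem exists_sys : Nonempty Sys := by
  classical
  let v : ℕ → ℤ × ℤ := fun j => (pa tt j true, pa tt j false)
  have st : ∀ i j, Nr 1 (pa tt i) (pa tt j) → ph (v i) - ph (v j) ∈
      (Finset.Icc (-1 : ℤ) 1 ×ˢ Finset.Icc (-1 : ℤ) 1).image ph := fun i j h => by
    have h1 := h true
    have h2 := h false
    rw [← map_sub]
    refine Finset.mem_image_of_mem _ ?_
    simp only [v, Finset.mem_product, Finset.mem_Icc, Prod.fst_sub, Prod.snd_sub]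
    omega
  refine ⟨⟨len tt, fun j => ph (v j), fun n => 2 * mu ^ (n + 1), cc, ph.range, _, fun n => ?_,
    fun n => ?_, fun n i j hi h => ?_,
    fun j => ⟨st _ _ fun b => (pa_step j b).symm, st _ _ (pa_step j)⟩, fun i j h => ?_,
    fun δ => ?_, fun j => ⟨_, rfl⟩, Set.countable_range _, cc_cont, cc_succ,
    fun _ _ _ => cc_tail, cc_zero, fun _ _ => cc_dig, fun _ => cc_gen⟩⟩
  · cases n with
    | zero => exact even_two
    | succ n => exact (even_two_mul _).add ((tt_even n).1.add (tt_even n).2)
  · have := tt_gap (n + 1) true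
    have := tt_gap n true
    have := t_le (t := tt) n true
    rw [len_succ]
    omega
  · simp only [v, ph_apply, pa_sym hi h, ← (tt_val n).1]
    push_cast
    ring
  · obtain ⟨h1, h2⟩ := Prod.mk.inj (ph_inj h)
    exact pa_inj tt_gap (funext (bool_cases true (Nat.cast_injective h1) (Nat.cast_injective h2)))
  · by_cases h : δ ∈ ph.range
    · obtain ⟨⟨a, b⟩, rfl⟩ := h
      obtain ⟨ρ, hρ⟩ := pa_coarse tt_gap (a.natAbs + b.natAbs)
      refine ⟨ρ, fun i j h => hρ i j ?_⟩
      rw [← map_sub] at h
      obtain ⟨h1, h2⟩ := Prod.mk.inj (ph_inj h)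
      simp only [v] at h1 h2
      exact bool_cases true (by omega) (by rw [Bool.not_true]; omega)
    · exact ⟨0, fun i j h' => (h ⟨_, (map_sub _ _ _).trans h'⟩).elim⟩

end Pool.Agent.Lib.MP_846a4c_an.R
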