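import Pool.Agent.Lib.MP_846a4c_an.R.Defs

/-! Every class carries a line. -/

set_option autoImplicit false

namespace Pool.Agent.Lib.MP_846a4c_an.R.Sys

variable (s : Sys)

/-- The index at level `n + k` of the point with index `i` at level `n`. -/
def F (e : ℕ → Bool) (n : ℕ) : ℕ → ℤ → ℤ
  | 0, i => i
  | k + 1, i => if e (n + k) = true then s.l (n + k + 1) - F e n k i else F e n k i

/-- The index lies in its block. -/
def In (e : ℕ → Bool) (n k : ℕ) (i : ℤ) : Prop := 0 ≤ s.F e n k i ∧ s.F e n k i ≤ s.l (n + k)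

/-- The point with this index. -/
def pos (e : ℕ → Bool) (n k : ℕ) (i : ℤ) : ℝ := s.c (n + k) e + s.g (s.F e n k i).toNat

variable {s} {e e' : ℕ → Bool} {n k : ℕ} {i : ℤ}

theorem tau_mem (n : ℕ) : s.τ n ∈ s.Γ := by
  have h := sub_mem (s.gm (s.l (n + 1))) (s.gm 0)
  rwa [s.sym n 0 _ (Nat.zero_le _) rfl, add_sub_cancel_left] at h

theorem c_mem (n : ℕ) (e : ℕ → Bool) : s.c 0 e - s.c n e ∈ s.Γ := by
  induction n with
  | zero => rw [sub_self]; exact zero_mem _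
  | succ n ih =>
    have h : (if e n = true then s.τ n else 0) ∈ s.Γ := by
      split_ifs
      exacts [tau_mem n, zero_mem _]
    have := add_mem ih h
    rwa [s.succ n, show ∀ a b c : ℝ, a - (b + c) + b = a - c from fun _ _ _ => by ring] at this

theorem le_l (n : ℕ) : n ≤ s.l n := by
  induction n with
  | zero => exact Nat.zero_le _
  | succ n ih =>
    have := s.grow n
    omega

theorem ones (he : s.c 0 e ∉ s.Γ) (N : ℕ) : ∃ m, N ≤ m ∧ e m = true := by
  by_contra h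
  have h1 := c_mem (s := s) N e
  rw [s.tail N e (fun _ => false) fun i hi => Bool.eq_false_iff.2 fun h2 => h ⟨i, hi, h2⟩, s.zero,
    sub_zero] at h1
  exact he h1

theorem F_iso (e : ℕ → Bool) (n k : ℕ) : ∃ T : ℤ, T % 2 = 0 ∧
    ((∀ i, s.F e n k i = T + i) ∨ ∀ i, s.F e n k i = T - i) := by
  induction k with
  | zero => exact ⟨0, rfl, .inl fun i => (zero_add i).symm⟩
  | succ k ih =>
    obtain ⟨T, hT, h⟩ := ih
    obtain ⟨r, hr⟩ := s.even (n + k + 1)
    by_cases h1 : e (n + k) = true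
    · refine ⟨s.l (n + k + 1) - T, by omega, h.symm.imp (fun h i => ?_) fun h i => ?_⟩ <;>
        rw [F, if_pos h1, h] <;> ring
    · exact ⟨T, hT, h.imp (fun h i => by rw [F, if_neg h1, h]) fun h i => by rw [F, if_neg h1, h]⟩

theorem In.succ (h : s.In e n k i) :
    s.In e n (k + 1) i ∧ s.pos e n (k + 1) i = s.pos e n k i := by
  have h1 := s.grow (n + k)
  obtain ⟨h2, h3⟩ := h
  simp only [In, pos, F, ← Nat.add_assoc]
  rw [s.succ (n + k)]
  split_ifs
  · refine ⟨by omega, ?_⟩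
    rw [s.sym (n + k) (s.F e n k i).toNat _ (by omega) (by omega)]
    ring
  · exact ⟨by omega, by ring⟩

theorem In.le (h : s.In e n k i) {k' : ℕ} (hk : k ≤ k') :
    s.In e n k' i ∧ s.pos e n k' i = s.pos e n k i := by
  induction k', hk using Nat.le_induction with
  | base => exact ⟨h, rfl⟩
  | succ k' _ ih => exact ⟨ih.1.succ.1, ih.1.succ.2.trans ih.2⟩

theorem exists_in (he : s.c 0 e ∉ s.Γ) (n : ℕ) (i : ℤ) : ∃ k, s.In e n k i := by
  have key : ∀ k, -(i.natAbs : ℤ) ≤ s.F e n k i ∧ s.F e n k i ≤ s.l (n + k) + i.natAbs :=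
    fun k => by
      induction k with
      | zero =>
        rw [F]
        omega
      | succ k ih =>
        have h1 := s.grow (n + k)
        rw [F, ← Nat.add_assoc]
        split_ifs <;> omega
  obtain ⟨m, hm, h⟩ := ones he (n + i.natAbs)
  obtain ⟨k, rfl⟩ : ∃ k, m = n + k := ⟨m - n, by omega⟩
  have h0 := key k
  have h1 := s.grow (n + k)
  have h2 := s.grow (n + k + 1)
  have h3 := le_l (s := s) (n + k)
  refine ⟨k + 2, ?_⟩
  simp only [In, F, h, if_true, ← Nat.add_assoc]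
  rw [show n + k + 2 = n + k + 1 + 1 from rfl]
  split_ifs <;> omega

theorem in_zero {j : ℕ} (hj : j ≤ s.l n) :
    s.In e n 0 j ∧ s.pos e n 0 j = s.c n e + s.g j :=
  ⟨⟨Int.natCast_nonneg j, Int.ofNat_le.2 hj⟩, rfl⟩

theorem F_congr (h : ∀ i, n ≤ i → i < n + k → e' i = e i) (i : ℤ) :
    s.F e' n k i = s.F e n k i := by
  induction k with
  | zero => rfl
  | succ k ih =>
    rw [F, F, ih fun i h1 h2 => h i h1 (by omega), h _ (by omega) (by omega)]

theorem exists_line (he : s.c 0 e ∉ s.Γ) (n : ℕ) : ∃ y, s.Line n e y := by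
  choose κ hκ using exists_in he n
  have hy : ∀ k i, s.In e n k i → s.pos e n (κ i) i = s.pos e n k i := fun k i h =>
    ((hκ i).le (le_max_left _ k)).2.symm.trans (h.le (le_max_right _ _)).2
  have lift : ∀ {e' m k k' j i}, j ≤ s.l m → m + k' = n + k →
      (∀ i, n + k ≤ i → e' i = e i) → s.F e n k i = s.F e' m k' (j : ℕ) →
      s.c m e' + s.g j = s.pos e n (κ i) i := fun {e' m k k' j i} hj hk ht h => by
    obtain ⟨h1, h2⟩ := (in_zero (e := e') hj).1.le k'.zero_le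
    rw [hy k i ⟨h ▸ h1.1, h ▸ hk ▸ h1.2⟩, ← (in_zero hj).2, ← h2, pos, pos, h, hk,
      s.tail _ _ _ ht]
  refine ⟨fun i => s.pos e n (κ i) i, fun i hi => lift (k := 0) (k' := 0) hi rfl (fun _ _ => rfl) rfl,
    fun i => ?_, fun i i' => ?_, fun m e' h => ?_, fun k e' hk h1 h2 => ?_⟩
  · have h := sub_mem (s.gm (s.F e n (κ i) i).toNat) (c_mem (n + κ i) e)
    rwa [show ∀ a b c : ℝ, a - (b - c) = c + a - b from fun _ _ _ => by ring] at h
  · obtain ⟨h1, h2⟩ := (hκ i).le (le_max_left _ (κ i'))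
    obtain ⟨h3, h4⟩ := (hκ i').le (le_max_right (κ i) _)
    obtain ⟨T, hT, h⟩ := F_iso (s := s) e n (max (κ i) (κ i'))
    unfold In at h1 h3
    refine ⟨_, _, _, by omega, by omega, h2.symm, h4.symm, ?_⟩
    rcases h with h | h <;> rw [h] at h1 h3 <;> rw [h, h] <;> omega
  · obtain ⟨N, hN⟩ := s.dig _ _ h
    obtain ⟨T, hT, h1⟩ := F_iso (s := s) e n (N + m)
    obtain ⟨T', hT', h2⟩ := F_iso (s := s) e' m (N + n)
    have L : ∀ j ≤ s.l m, ∀ i, s.F e n (N + m) i = s.F e' m (N + n) (j : ℕ) →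
        s.c m e' + s.g j = s.pos e n (κ i) i := fun j hj i =>
      lift hj (by omega) fun i hi => hN i (by omega)
    rcases h1 with h1 | h1 <;> rcases h2 with h2 | h2
    · exact ⟨T' - T, by omega, .inl fun j hj => L j hj _ (by rw [h1, h2]; ring)⟩
    · exact ⟨T' - T, by omega, .inr fun j hj => L j hj _ (by rw [h1, h2]; ring)⟩
    · exact ⟨T - T', by omega, .inr fun j hj => L j hj _ (by rw [h1, h2]; ring)⟩
    · exact ⟨T - T', by omega, .inl fun j hj => L j hj _ (by rw [h1, h2]; ring)⟩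
  · obtain ⟨k, rfl⟩ := Nat.exists_eq_add_of_le hk
    obtain ⟨T, hT, h⟩ := F_iso (s := s) e n k
    obtain ⟨r, hr⟩ := s.even (n + k + 1)
    have L : ∀ j ≤ s.l n, ∀ i, s.F e n k i + s.F e n k (j : ℕ) = s.l (n + k + 1) →
        s.c n e' + s.g j = s.pos e n (κ i) i := fun j hj i hi =>
      lift (k := k + 1) (k' := k + 1) hj rfl (fun i hi => h2 i (by omega)) (by
        rw [F, F, F_congr (e' := e') (e := e) fun i _ hi => h2 i hi.ne]
        revert h1
        cases e' (n + k) <;> cases e (n + k) <;> simp <;> omega)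
    rcases h with h | h
    · exact ⟨s.l (n + k + 1) - 2 * T, by omega, fun j hj => L j hj _ (by rw [h, h]; ring)⟩
    · exact ⟨2 * T - s.l (n + k + 1), by omega, fun j hj => L j hj _ (by rw [h, h]; ring)⟩

namespace Line

variable {y : ℤ → ℝ} (L : s.Line n e y)
include L

theorem inj : Function.Injective y := fun i i' h => by
  obtain ⟨m, j, j', -, -, h1, h2, -, h3⟩ := L.loc i i'
  have := s.inj (add_left_cancel (h1.symm.trans (h.trans h2)))
  omega

theorem near {δ : ℝ} {ρ : ℕ} (h1 : ∀ i j, s.g i - s.g j = δ → i ≤ j + ρ)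
    (h2 : ∀ i j, s.g i - s.g j = -δ → i ≤ j + ρ) {i i' : ℤ} (h : y i - y i' = δ) :
    i ≤ i' + ρ ∧ i' ≤ i + ρ := by
  obtain ⟨m, j, j', -, -, h3, h4, -, h5⟩ := L.loc i i'
  have := h1 j j' (by linarith)
  have := h2 j' j (by linarith)
  omega

theorem mem (he : s.c 0 e ∉ s.Γ) (i : ℤ) {a : ℕ} (ha : (a : ℤ) = i % 2) : y i ∈ s.X a := by
  obtain ⟨m, j, -, h1, -, h2, -, h3, -⟩ := L.loc i i
  refine ⟨fun h => he ?_, m, e, j, h1, by omega, h2⟩
  have := sub_mem h (L.cls i)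
  rwa [sub_sub_cancel] at this

omit L in
theorem cl {m j : ℕ} {x : ℝ} (h : x = s.c m e' + s.g j) (hx : x - s.c 0 e ∈ s.Γ) :
    s.c 0 e' - s.c 0 e ∈ s.Γ := by
  have h1 := add_mem (sub_mem hx (s.gm j)) (c_mem m e')
  rwa [h, show ∀ a b c d : ℝ, a + b - c - b + (d - a) = d - c from fun _ _ _ _ => by ring] at h1

theorem surj {a : ℕ} {x : ℝ} (h : x ∈ s.X a) (hx : x - s.c 0 e ∈ s.Γ) :
    ∃ i, x = y i ∧ (a : ℤ) = i % 2 := by
  obtain ⟨-, m, e', j, h1, h2, h3⟩ := h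
  obtain ⟨T, hT, h | h⟩ := L.all m e' (cl h3 hx)
  · exact ⟨_, h3.trans (h j h1), by omega⟩
  · exact ⟨_, h3.trans (h j h1), by omega⟩

end Line

theorem exists_on {a : ℕ} {x : ℝ} (h : x ∈ s.X a) : ∃ e y i, s.c 0 e ∉ s.Γ ∧ s.Line 0 e y ∧
    x = y i ∧ (a : ℤ) = i % 2 := by
  obtain ⟨h0, m, e, j, h1, h2, h3⟩ := id h
  have h4 : x - s.c 0 e ∈ s.Γ := by
    have := sub_mem (s.gm j) (c_mem m e)
    rwa [show s.g j - (s.c 0 e - s.c m e) = x - s.c 0 e by rw [h3]; ring] at this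
  have he : s.c 0 e ∉ s.Γ := fun he => h0 (by simpa using add_mem h4 he)
  obtain ⟨y, L⟩ := exists_line he 0
  obtain ⟨i, hi⟩ := L.surj h h4
  exact ⟨e, y, i, he, L, hi⟩

theorem disj {x : ℝ} (h0 : x ∈ s.X 0) (h1 : x ∈ s.X 1) : False := by
  obtain ⟨e, y, i, -, L, rfl, h2⟩ := exists_on h0
  obtain ⟨i', h3, h4⟩ := L.surj h1 (L.cls i)
  have := L.inj h3
  omega

end Pool.Agent.Lib.MP_846a4c_an.R.Sys
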