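import Pool.Agent.Lib.MP_846a4c_an.R.Line
import Pool.Agent.Lib.MP_846a4c_an.Baire

/-! No measurable matching with finitely many moves. -/

set_option autoImplicit false

namespace Pool.Agent.Lib.MP_846a4c_an.R

open Filter

/-- The arcs that cross the cut after `h`, by their left ends. -/
def Cr (φ : ℤ → ℤ) (h : ℤ) : Set ℤ := {i | i ≤ h ∧ h < φ i}

section

variable {φ : ℤ → ℤ} {ρ : ℕ} (hi : ∀ i, φ (φ i) = i) (hn : ∀ i, φ i ≠ i)
  (hb : ∀ i, φ i ≤ i + ρ)

include hb in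
theorem cr_fin (h : ℤ) : (Cr φ h).Finite :=
  (Set.finite_Icc (h - ρ) h).subset fun i hi => ⟨by have := hb i; have := hi.2; omega, hi.1⟩

include hi hn hb

theorem cr_succ (h : ℤ) : ((Cr φ (h + 1)).ncard : ZMod 2) = (Cr φ h).ncard + 1 := by
  have h1 := hi (h + 1)
  have key : ∀ i, φ i = h + 1 ↔ i = φ (h + 1) := fun i =>
    ⟨fun h2 => by rw [← h2, hi], fun h2 => by rw [h2, h1]⟩
  rcases (hn (h + 1)).lt_or_gt with h2 | h2
  · have : Cr φ h = insert (φ (h + 1)) (Cr φ (h + 1)) := Set.ext fun i => by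
      have := key i
      by_cases h3 : i = h + 1
      · subst h3
        simp only [Cr, Set.mem_insert_iff, Set.mem_ofPred_eq]
        omega
      · simp only [Cr, Set.mem_insert_iff, Set.mem_ofPred_eq]
        omega
    rw [this, Set.ncard_insert_of_notMem (fun h => by have := h.2; omega) (cr_fin hb _),
      Nat.cast_succ, add_assoc, show (1 : ZMod 2) + 1 = 0 from rfl, add_zero]
  · have : Cr φ (h + 1) = insert (h + 1) (Cr φ h) := Set.ext fun i => by
      have := key i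
      by_cases h3 : i = h + 1
      · exact ⟨fun _ => .inl h3, fun _ => ⟨h3.le, h3 ▸ h2⟩⟩
      · simp only [Cr, Set.mem_insert_iff, Set.mem_ofPred_eq]
        omega
    rw [this, Set.ncard_insert_of_notMem (fun h => by have := h.1; omega) (cr_fin hb _),
      Nat.cast_succ]

theorem cr_eq (h : ℤ) : ((Cr φ h).ncard : ZMod 2) = (Cr φ 0).ncard + (h : ZMod 2) := by
  induction h using Int.induction_on with
  | zero => simp
  | succ h ih =>
    rw [cr_succ hi hn hb, ih]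
    push_cast
    ring
  | pred h ih =>
    have := cr_succ hi hn hb (-h - 1)
    rw [sub_add_cancel, ih] at this
    rw [← sub_eq_iff_eq_add.2 this]
    push_cast
    ring

theorem cr_refl {T : ℤ} (hT : T % 2 = 0) (h : ℤ) :
    ((Cr (fun i => T - φ (T - i)) h).ncard : ZMod 2) + (Cr φ h).ncard = 1 := by
  have : Cr φ (T - h - 1) = (fun i => φ (T - i)) '' Cr (fun i => T - φ (T - i)) h := by
    ext k
    simp only [Cr, Set.mem_image, Set.mem_ofPred_eq]
    constructor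
    · rintro ⟨h1, h2⟩
      refine ⟨T - φ k, ?_, ?_⟩ <;> rw [sub_sub_cancel, hi]
      omega
    · rintro ⟨i, ⟨h1, h2⟩, rfl⟩
      rw [hi]
      omega
  obtain ⟨r, rfl⟩ : ∃ r, T = 2 * r := ⟨T / 2, by omega⟩
  rw [← Set.ncard_image_of_injective _ (f := fun i => φ (2 * r - i))
    fun i j h => sub_right_injective (Function.Involutive.injective hi h), ← this,
    cr_eq hi hn hb, cr_eq hi hn hb h]
  push_cast
  generalize ((Cr φ 0).ncard : ZMod 2) = a
  generalize (r : ZMod 2) = b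
  generalize (h : ZMod 2) = c
  revert a b c
  decide

end

open Classical in
/-- The number of arcs inside a block that cross the cut after `ρ`. -/
noncomputable def cnt (R : ℝ → ℝ → Prop) (x : ℕ → ℝ) (ρ l : ℕ) : ℕ :=
  ∑ i ∈ Finset.range (ρ + 1), if ∃ i', ρ < i' ∧ i' ≤ l ∧ R (x i) (x i') then 1 else 0

theorem cnt_eq {R : ℝ → ℝ → Prop} {x : ℕ → ℝ} {ρ l : ℕ} {y : ℤ → ℝ} {φ : ℤ → ℤ}
    (hl : 2 * ρ ≤ l) (hx : ∀ i ≤ l, x i = y i) (hR : ∀ i j, R (y i) (y j) ↔ φ i = j)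
    (hb : ∀ i, φ i ≤ i + ρ) : cnt R x ρ l = (Cr φ ρ).ncard := by
  classical
  rw [cnt, ← Finset.card_filter, ← Set.ncard_coe_finset,
    ← Set.ncard_image_of_injective _ (Nat.cast_injective (R := ℤ))]
  congr 1
  ext k
  simp only [Cr, Set.mem_image, Set.mem_ofPred_eq, Finset.coe_filter, Finset.mem_range]
  constructor
  · rintro ⟨i, ⟨h1, i', h2, h3, h4⟩, rfl⟩
    rw [hx i (by omega), hx i' h3, hR] at h4
    omega
  · rintro ⟨h1, h2⟩
    have := hb k
    refine ⟨k.toNat, ⟨by omega, (φ k).toNat, by omega, by omega, ?_⟩, by omega⟩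
    rw [hx _ (by omega), hx _ (by omega), hR, Int.toNat_of_nonneg (by omega),
      Int.toNat_of_nonneg (by omega)]

theorem no_matching (s : Sys) {ι : Type} [Fintype ι] (f : ι → ℝ) (R : ℝ → ℝ → Prop)
    (hs : ∀ x z, R x z → R z x) (hi : ∀ x, ¬ R x x) (hex : ∀ a, ∀ x ∈ s.X a, ∃ z, R x z)
    (hu : ∀ x z z', R x z → R x z' → z = z') (hX : ∀ x z, R x z → ∃ a, z ∈ s.X a)
    (hf : ∀ x z, R x z → ∃ i, z - x = f i) (hm : Measurable fun p : ℝ × ℝ => R p.1 p.2) :
    False := by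
  classical
  choose r hr using s.coarse
  obtain ⟨ρ, hρ⟩ : ∃ ρ : ℕ, ∀ i, r (f i) ≤ ρ ∧ r (-f i) ≤ ρ :=
    ⟨∑ i, (r (f i) + r (-f i)), fun i => by
      have := Finset.single_le_sum (f := fun i => r (f i) + r (-f i)) (fun _ _ => Nat.zero_le _)
        (Finset.mem_univ i)
      omega⟩
  have hl := Sys.le_l (s := s) (2 * ρ)
  have := s.cnt.to_subtype
  have g1 : ∀ᶠ e in residual (ℕ → Bool), ∀ (k : s.Γ × ι), f k.2 ∉ s.Γ →
      ∀ e', s.c 0 e + (k.1 + f k.2) ≠ s.c 0 e' :=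
    eventually_countable_forall.2 fun k => by
      by_cases h : f k.2 ∈ s.Γ
      · exact .of_forall fun _ h' => absurd h h'
      · exact (s.gen _ fun h' => h ((add_mem_cancel_left k.1.2).1 h')).mono fun _ h' _ => h'
  have g2 := residual_avoid (Set.infinite_univ (α := ℕ)) fun _ => false
  refine no_flip_colouring
    (fun e => (cnt R (fun i => s.c (2 * ρ) e + s.g i) ρ (s.l (2 * ρ)) : ZMod 2))
    (fun v => ?_) (2 * ρ) ((g1.and g2).mono fun e he j hj => ?_)
  · have h1 : Measurable fun e => cnt R (fun i => s.c (2 * ρ) e + s.g i) ρ (s.l (2 * ρ)) :=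
      Finset.measurable_sum _ fun i _ => Measurable.ite (measurableSet_setOfPred.2 <|
        .exists fun i' => measurable_const.and <| measurable_const.and <| hm.comp <|
          ((s.cont _).measurable.add_const _).prodMk ((s.cont _).measurable.add_const _))
        measurable_const measurable_const
    exact h1 (MeasurableSet.of_discrete (s := {n : ℕ | (n : ZMod 2) = v}))
  · have h0 : s.c 0 e ∉ s.Γ := fun h => by
      obtain ⟨N, hN⟩ := s.dig e (fun _ => false) (by rwa [s.zero, sub_zero])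
      obtain ⟨m, h1, -, h2⟩ := he.2 N
      exact h2 (hN m h1)
    obtain ⟨y, L⟩ := Sys.exists_line h0 (2 * ρ)
    have h1 : ∀ i, ∃ k, R (y i) (y k) := fun i => by
      obtain ⟨z, hz⟩ := hex _ _ (L.mem h0 i (a := (i % 2).toNat) (by omega))
      obtain ⟨a, ha⟩ := hX _ _ hz
      obtain ⟨k, hk⟩ := hf _ _ hz
      have h2 : f k ∈ s.Γ := by
        by_contra h
        obtain ⟨-, m, e', j, -, -, h3⟩ := ha
        refine he.1 (⟨_, add_mem (sub_mem (L.cls i) (s.gm j)) (Sys.c_mem m e')⟩, k) h e' ?_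
        simp only
        linarith
      obtain ⟨i', rfl, -⟩ := L.surj ha (by
        rw [show z - s.c 0 e = f k + (y i - s.c 0 e) by linarith]
        exact add_mem h2 (L.cls i))
      exact ⟨i', hz⟩
    choose φ hφ using h1
    have hR : ∀ i j, R (y i) (y j) ↔ φ i = j := fun i j =>
      ⟨fun h => L.inj (hu _ _ _ (hφ i) h), fun h => h ▸ hφ i⟩
    have hb : ∀ i, φ i ≤ i + ρ ∧ i ≤ φ i + ρ := fun i => by
      obtain ⟨k, hk⟩ := hf _ _ (hφ i)
      exact L.near (fun i j h => (hr _ i j h).trans (by have := hρ k; omega))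
        (fun i j h => (hr _ i j h).trans (by have := hρ k; omega)) hk
    obtain ⟨T, hT, h2⟩ := L.flip j (flipBit j e) hj (by simp [flipBit])
      fun i hi => Function.update_of_ne hi _ _
    rw [cnt_eq hl L.base hR fun i => (hb i).1,
      cnt_eq (y := fun i => y (T - i)) (φ := fun i => T - φ (T - i)) hl h2
        (fun i j => (hR _ _).trans (by omega)) fun i => by have := hb (T - i); omega]
    exact cr_refl (fun i => (hR _ _).1 (hs _ _ (hφ i))) (fun i h => hi _ ((hR i i).2 h))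
      (fun i => (hb i).1) hT _

theorem not_equidec (s : Sys) {m : ℕ} (P : Fin m → Set ℝ) (f : Fin m → ℝ)
    (hm : ∀ i, MeasurableSet (P i)) (h1 : ∀ i j, i ≠ j → Disjoint (P i) (P j))
    (h2 : ∀ i j, i ≠ j → Disjoint ((fun x => f i + x) '' P i) ((fun x => f j + x) '' P j))
    (hA : ⋃ i, P i = s.X 0) (hB : ⋃ i, (fun x => f i + x) '' P i = s.X 1) : False := by
  have mA : ∀ {i x}, x ∈ P i → x ∈ s.X 0 := fun {i x} h => hA ▸ Set.mem_iUnion.2 ⟨i, h⟩
  have mB : ∀ {i x}, x ∈ P i → f i + x ∈ s.X 1 := fun {i x} h =>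
    hB ▸ Set.mem_iUnion.2 ⟨i, x, h, rfl⟩
  refine no_matching s (Sum.elim f fun i => -f i)
    (fun x z => ∃ i, x ∈ P i ∧ z = f i + x ∨ z ∈ P i ∧ x = f i + z)
    (fun x z ⟨i, h⟩ => ⟨i, h.symm⟩) (fun x ⟨i, h⟩ => ?_) (fun a x hx => ?_) ?_ ?_ ?_ ?_
  · have := h.elim id id
    exact Sys.disj (mA this.1) (this.2 ▸ mB this.1)
  · obtain rfl | rfl : a = 0 ∨ a = 1 := by
      obtain ⟨-, n, e, j, -, h, -⟩ := hx
      omega
    · obtain ⟨i, h⟩ := Set.mem_iUnion.1 (hA ▸ hx)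
      exact ⟨_, i, .inl ⟨h, rfl⟩⟩
    · obtain ⟨i, z, h, rfl⟩ := Set.mem_iUnion.1 (hB ▸ hx)
      exact ⟨z, i, .inr ⟨h, rfl⟩⟩
  · rintro x z z' ⟨i, ⟨h, rfl⟩ | ⟨h, g⟩⟩ ⟨j, ⟨h', rfl⟩ | ⟨h', g'⟩⟩
    · by_contra h3
      exact Set.disjoint_left.1 (h1 i j fun h4 => h3 (by rw [h4])) h h'
    · exact (Sys.disj (mA h) (g' ▸ mB h')).elim
    · exact (Sys.disj (mA h') (g ▸ mB h)).elim
    · by_contra h3
      exact Set.disjoint_left.1 (h2 i j fun h4 => h3 (by subst h4; linarith)) ⟨z, h, g.symm⟩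
        ⟨z', h', g'.symm⟩
  · rintro x z ⟨i, ⟨h, rfl⟩ | ⟨h, -⟩⟩
    exacts [⟨1, mB h⟩, ⟨0, mA h⟩]
  · rintro x z ⟨i, ⟨-, rfl⟩ | ⟨-, rfl⟩⟩
    exacts [⟨.inl i, by simp⟩, ⟨.inr i, by simp⟩]
  · exact .exists fun i => Measurable.or
      (((measurableSet_setOfPred.1 (hm i)).comp measurable_fst).and
        (measurable_snd.eq (measurable_fst.const_add _)))
      (((measurableSet_setOfPred.1 (hm i)).comp measurable_snd).and
        (measurable_fst.eq (measurable_snd.const_add _)))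

end Pool.Agent.Lib.MP_846a4c_an.R
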