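import Mathlib

/-! A path in the plane lattice that is built by doubling and is coarsely embedded. -/

set_option autoImplicit false

namespace Pool.Agent.Lib.MP_846a4c_an.R

variable (t : ℕ → Bool → ℕ)

/-- Length of connector `n`. -/
def cl (n : ℕ) : ℕ := t n true + t n false

/-- Length of block `n`. -/
def len : ℕ → ℕ
  | 0 => 2
  | n + 1 => 2 * len n + cl t n

/-- End point of block `n`. -/
def en : ℕ → Bool → ℕ
  | 0 => fun _ => 2
  | n + 1 => t n

/-- The box of block `n`. -/
def bx : ℕ → Bool → ℕ
  | 0 => fun _ => 2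
  | n + 1 => fun b => bx n b + t n b

/-- Connector `n`. -/
def wk (n k : ℕ) (b : Bool) : ℕ := if b = n.bodd then min k (t n b) else k - t n n.bodd

/-- Block `n`. -/
def blk : ℕ → ℕ → Bool → ℕ
  | 0, j => fun _ => j
  | n + 1, j => if j ≤ len t n then blk n j else if j ≤ len t n + cl t n then
      fun b => en t n b + wk t n (j - len t n) b else fun b => blk n (len t (n + 1) - j) b + t n b

/-- The path. -/
def pa (j : ℕ) : Bool → ℕ := blk t j j

/-- Two lattice points are near. -/
def Nr (R : ℕ) (u v : Bool → ℕ) : Prop := ∀ b, u b ≤ v b + R ∧ v b ≤ u b + R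

variable {t}

theorem len_succ (n : ℕ) : len t (n + 1) = 2 * len t n + cl t n := rfl

theorem le_len (n : ℕ) : n + 2 ≤ len t n := by
  induction n with
  | zero => exact le_rfl
  | succ n ih => rw [len_succ]; omega

theorem len_mono : Monotone (len t) := monotone_nat_of_le_succ fun n => by rw [len_succ]; omega

theorem cl_eq (n : ℕ) : cl t n = t n n.bodd + t n (!n.bodd) := by
  unfold cl
  cases n.bodd
  · exact Nat.add_comm _ _
  · rfl

theorem wk_fst (n k : ℕ) : wk t n k n.bodd = min k (t n n.bodd) := if_pos rfl

theorem wk_snd (n k : ℕ) : wk t n k (!n.bodd) = k - t n n.bodd := if_neg (Bool.not_ne_self _)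

theorem bool_cases (a : Bool) {p : Bool → Prop} (h1 : p a) (h2 : p (!a)) (b : Bool) : p b := by
  cases a <;> cases b <;> assumption

theorem blk_eq {n m j : ℕ} (h : n ≤ m) (hj : j ≤ len t n) : blk t m j = blk t n j := by
  induction m, h using Nat.le_induction with
  | base => rfl
  | succ m h ih => rw [blk, if_pos (hj.trans (len_mono h)), ih]

theorem pa_eq {n j : ℕ} (hj : j ≤ len t n) : pa t j = blk t n j := by
  have := le_len (t := t) j
  rcases le_total n j with h | h
  · exact blk_eq h hj
  · exact (blk_eq h (by omega)).symm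

theorem pa_base {j : ℕ} (hj : j ≤ 2) (b : Bool) : pa t j b = j := by
  rw [pa_eq (n := 0) hj]
  rfl

theorem pa_end (n : ℕ) : pa t (len t n) = en t n := by
  cases n with
  | zero => exact funext (pa_base le_rfl)
  | succ n =>
    have h := le_len (t := t) n
    have h1 := len_succ (t := t) n
    rw [pa_eq le_rfl, blk, if_neg (by omega), if_neg (by omega), Nat.sub_self,
      ← pa_eq (Nat.zero_le _)]
    exact funext fun b => by rw [pa_base (Nat.zero_le _), Nat.zero_add, en]

theorem pa_con {n k : ℕ} (hk : k ≤ cl t n) (b : Bool) :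
    pa t (len t n + k) b = en t n b + wk t n k b := by
  rcases Nat.eq_zero_or_pos k with rfl | h
  · rw [Nat.add_zero, pa_end]
    simp [wk]
  · rw [pa_eq (n := n + 1) (by rw [len_succ]; omega), blk, if_neg (by omega), if_pos (by omega),
      Nat.add_sub_cancel_left]

theorem pa_sym {n i j : ℕ} (hi : i ≤ len t n) (h : j + i = len t (n + 1)) (b : Bool) :
    pa t j b = pa t i b + t n b := by
  have h1 := len_succ (t := t) n
  rcases hi.eq_or_lt with rfl | hi'
  · obtain rfl : j = len t n + cl t n := by omega
    rw [pa_con le_rfl, pa_end]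
    have h2 := cl_eq (t := t) n
    refine bool_cases n.bodd (p := fun b => en t n b + wk t n (cl t n) b = en t n b + t n b)
      ?_ ?_ b
    · rw [wk_fst]; omega
    · rw [wk_snd]; omega
  · rw [pa_eq (n := n + 1) (by omega), blk, if_neg (by omega), if_neg (by omega),
      show len t (n + 1) - j = i by omega, ← pa_eq hi]

theorem tri {n j : ℕ} (h : j ≤ len t (n + 1)) :
    j ≤ len t n ∨ (∃ k ≤ cl t n, j = len t n + k) ∨ ∃ i ≤ len t n, j + i = len t (n + 1) := by
  have h1 := len_succ (t := t) n
  by_cases h2 : j ≤ len t n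
  · exact .inl h2
  by_cases h3 : j ≤ len t n + cl t n
  · exact .inr (.inl ⟨j - len t n, by omega, by omega⟩)
  · exact .inr (.inr ⟨len t (n + 1) - j, by omega, by omega⟩)

theorem wk_le {n k : ℕ} (hk : k ≤ cl t n) (b : Bool) : wk t n k b ≤ t n b ∧ wk t n k b ≤ k := by
  have h2 := cl_eq (t := t) n
  refine bool_cases n.bodd (p := fun b => wk t n k b ≤ t n b ∧ wk t n k b ≤ k) ?_ ?_ b
  · rw [wk_fst]; omega
  · rw [wk_snd]; omega

theorem t_le (n : ℕ) (b : Bool) : t n b ≤ cl t n := by
  unfold cl
  cases b <;> omega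

theorem pa_le {n j : ℕ} (hj : j ≤ len t n) (b : Bool) : pa t j b ≤ bx t n b ∧ pa t j b ≤ j := by
  induction n generalizing j with
  | zero => rw [pa_base hj]; exact ⟨hj, le_rfl⟩
  | succ n ih =>
    have h0 : bx t (n + 1) b = bx t n b + t n b := rfl
    have h1 := len_succ (t := t) n
    have h4 := t_le (t := t) n b
    rcases tri hj with h | ⟨k, hk, rfl⟩ | ⟨i, hi, h⟩
    · have := ih h
      omega
    · have h2 := ih le_rfl
      have h3 := wk_le hk b
      rw [pa_end] at h2
      rw [pa_con hk]
      omega
    · have := ih hi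
      rw [pa_sym hi h]
      omega

theorem pa_step (j : ℕ) : Nr 1 (pa t j) (pa t (j + 1)) := by
  have key : ∀ n j, j + 1 ≤ len t n → Nr 1 (pa t j) (pa t (j + 1)) := fun n => by
    induction n with
    | zero =>
      intro j hj b
      rw [pa_base hj, pa_base (Nat.le_of_succ_le hj)]
      omega
    | succ n ih =>
      intro j hj
      have h1 := len_succ (t := t) n
      by_cases h2 : j + 1 ≤ len t n
      · exact ih j h2
      by_cases h3 : j + 1 ≤ len t n + cl t n
      · obtain ⟨k, rfl⟩ : ∃ k, j = len t n + k := ⟨j - len t n, by omega⟩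
        refine bool_cases n.bodd ?_ ?_
        · rw [Nat.add_assoc, pa_con (by omega), pa_con (by omega), wk_fst, wk_fst]
          omega
        · rw [Nat.add_assoc, pa_con (by omega), pa_con (by omega), wk_snd, wk_snd]
          omega
      · intro b
        obtain ⟨i, hi⟩ : ∃ i, j + 1 + i = len t (n + 1) := ⟨len t (n + 1) - (j + 1), by omega⟩
        have := ih i (by omega) b
        rw [pa_sym (n := n) (i := i + 1) (by omega) (by omega), pa_sym (by omega) hi]
        omega
  exact key j j ((Nat.le_succ _).trans (le_len j))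

variable (H : ∀ n b, bx t n b + n < t n b)
include H

theorem en_le (n : ℕ) (b : Bool) : n < en t n b ∧ en t n b ≤ bx t n b := by
  refine ⟨?_, pa_end (t := t) n ▸ (pa_le le_rfl b).1⟩
  cases n with
  | zero => exact two_pos
  | succ n =>
    have h1 := H n b
    have h2 : 0 < bx t n b := by
      induction n with
      | zero => exact two_pos
      | succ n ih => exact (ih (H n b)).trans_le (Nat.le_add_right _ _)
    change _ < t n b
    omega

theorem pa_low {n j : ℕ} (hj : len t n ≤ j) (b : Bool) : n < pa t j b := by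
  have key : ∀ m, n ≤ m → ∀ j, len t n ≤ j → j ≤ len t m → n < pa t j b := fun m hm => by
    induction m, hm using Nat.le_induction with
    | base =>
      intro j h1 h2
      rw [le_antisymm h2 h1, pa_end]
      exact (en_le H n b).1
    | succ m hm ih =>
      intro j h1 h2
      have h3 := en_le H m b
      have h4 := H m b
      rcases tri h2 with h | ⟨k, hk, rfl⟩ | ⟨i, hi, h⟩
      · exact ih j h1 h
      · rw [pa_con hk]
        omega
      · rw [pa_sym hi h]
        omega
  have := le_len (t := t) (n + j)
  exact key (n + j) (Nat.le_add_right _ _) j hj (by omega)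

theorem ray {R r n i k : ℕ} (hr : ∀ j b, pa t j b ≤ R → j ≤ r) (hn : R < n ∨ R = 0)
    (hi : i ≤ len t n) (h : (pa t i n.bodd ≤ en t n n.bodd + k + R ∧
        en t n n.bodd + k ≤ pa t i n.bodd + R ∧ pa t i (!n.bodd) ≤ en t n (!n.bodd) + R ∧
        en t n (!n.bodd) ≤ pa t i (!n.bodd) + R) ∨
      (pa t i n.bodd ≤ en t n n.bodd + R ∧ en t n n.bodd ≤ pa t i n.bodd + R ∧
        pa t i (!n.bodd) + k ≤ en t n (!n.bodd) + R ∧
        en t n (!n.bodd) ≤ pa t i (!n.bodd) + k + R)) : len t n ≤ i + r ∧ k ≤ r + R := by
  cases n with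
  | zero =>
    have h1 : i ≤ 2 := hi
    simp only [pa_base h1, en, len] at h ⊢
    omega
  | succ n =>
    have h1 := H n n.bodd
    have h2 := H n (!n.bodd)
    have h3 := en_le H n n.bodd
    have h4 := en_le H n (!n.bodd)
    rw [Nat.bodd_succ, Bool.not_not, en] at h
    rcases tri hi with g | ⟨j, hj, rfl⟩ | ⟨j, hj, g⟩
    · have := pa_le g n.bodd
      have := pa_le g (!n.bodd)
      omega
    · rw [pa_con hj, pa_con hj, wk_fst, wk_snd] at h
      omega
    · have := pa_le hj (!n.bodd)
      have := hr j n.bodd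
      have := hr j (!n.bodd)
      rw [pa_sym hj g, pa_sym hj g] at h
      omega

theorem coarse_aux {R r s : ℕ} (hr : ∀ j b, pa t j b ≤ R → j ≤ r)
    (hs : R = 0 ∨ len t (R + 1) ≤ s) (n : ℕ) : ∀ i ≤ len t n, ∀ j ≤ len t n,
      Nr R (pa t i) (pa t j) → i ≤ j + (2 * r + 2 * R + s) := by
  induction n with
  | zero =>
    intro i hi j hj h
    have h1 := h true
    rw [pa_base hi, pa_base hj] at h1
    omega
  | succ n ih =>
    intro i hi j hj h
    by_cases hn : ¬ (R < n ∨ R = 0)
    · have := len_mono (t := t) (show n + 1 ≤ R + 1 by omega)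
      omega
    rw [not_not] at hn
    have h0 := len_succ (t := t) n
    have h1 := H n n.bodd
    have h2 := H n (!n.bodd)
    have h3 := en_le H n n.bodd
    have h4 := en_le H n (!n.bodd)
    have h5 := cl_eq (t := t) n
    have a := h n.bodd
    have a' := h (!n.bodd)
    rcases tri hi with g | ⟨k, hk, rfl⟩ | ⟨u, hu, g⟩ <;>
      rcases tri hj with g' | ⟨k', hk', rfl⟩ | ⟨u', hu', g'⟩
    · exact ih i g j g' h
    · omega
    · omega
    · have := pa_le g' n.bodd
      rw [pa_con hk, wk_fst] at a
      rw [pa_con hk, wk_snd] at a'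
      have := ray H (k := k) hr hn g' (by omega)
      omega
    · rw [pa_con hk, pa_con hk', wk_fst, wk_fst] at a
      rw [pa_con hk, pa_con hk', wk_snd, wk_snd] at a'
      omega
    · omega
    · have := pa_le g' n.bodd
      rw [pa_sym hu g] at a
      omega
    · rw [pa_con hk', wk_fst, pa_sym hu g] at a
      rw [pa_con hk', wk_snd, pa_sym hu g] at a'
      have := ray H (k := cl t n - k') hr hn hu (by omega)
      omega
    · have := ih u' hu' u hu fun b => by
        have := h b
        rw [pa_sym hu g, pa_sym hu' g'] at this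
        omega
      omega

theorem pa_inj : Function.Injective (pa t) := fun i j h => by
  have key : ∀ i j, pa t i = pa t j → i ≤ j := fun i j h => by
    have := le_len (t := t) (i + j)
    exact coarse_aux H (R := 0) (r := 0) (s := 0) (fun j b hj => by
      by_contra h1
      have h2 : j ≤ 2 := by
        by_contra h2
        have := pa_low H (n := 0) (j := j) (by change 2 ≤ j; omega) b
        omega
      rw [pa_base h2] at hj
      exact h1 hj) (.inl rfl) (i + j) i (by omega) j (by omega) fun b => by rw [h]; omega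
  exact le_antisymm (key i j h) (key j i h.symm)

theorem pa_coarse (R : ℕ) : ∃ ρ, ∀ i j, Nr R (pa t i) (pa t j) → i ≤ j + ρ := by
  refine ⟨_, fun i j h => coarse_aux H (r := len t R) (fun j b hj => ?_) (.inr le_rfl) (i + j)
    i ?_ j ?_ h⟩
  · by_contra h1
    have := pa_low H (not_le.1 h1).le b
    omega
  all_goals
    have := le_len (t := t) (i + j)
    omega

end Pool.Agent.Lib.MP_846a4c_an.R
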